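import Mathlib

/-! MP_682720: the integer inequality (item (4) of the R6 proof), general class. -/

namespace SCH4

/-- four times the averaged weight -/
def w4 (m z x y : ℤ) : ℤ :=
  if z + x + y - m ≤ 0 then 0
  else if 2 * min z (min x y) < z + x + y - m then
    4 * min z (min x y) * (z + x + y - m - min z (min x y))
  else if z % 2 = 0 then (z + x + y - m) ^ 2 - (z + x + y - m) % 2
  else (z + x + y - m) ^ 2 + (z + x + y - m) % 2

theorem w4_symm (m z x y : ℤ) : w4 m z x y = w4 m z y x := by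
  unfold w4
  have e1 : z + x + y - m = z + y + x - m := by ring
  have e2 : min x y = min y x := min_comm _ _
  rw [e1, e2]

/-- the five cases -/
theorem w4_cases (m z x y : ℤ) (hxy : y ≤ x) :
    (z + x + y - m ≤ 0 ∧ w4 m z x y = 0) ∨
    (0 < z + x + y - m ∧ z ≤ y ∧ 2 * z < z + x + y - m ∧
      w4 m z x y = 4 * z * (z + x + y - m - z)) ∨
    (0 < z + x + y - m ∧ y ≤ z ∧ 2 * y < z + x + y - m ∧
      w4 m z x y = 4 * y * (z + x + y - m - y)) ∨
    (0 < z + x + y - m ∧ z + x + y - m ≤ 2 * y ∧ z + x + y - m ≤ 2 * z ∧ z % 2 = 0 ∧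
      w4 m z x y = (z + x + y - m) ^ 2 - (z + x + y - m) % 2) ∨
    (0 < z + x + y - m ∧ z + x + y - m ≤ 2 * y ∧ z + x + y - m ≤ 2 * z ∧ z % 2 = 1 ∧
      w4 m z x y = (z + x + y - m) ^ 2 + (z + x + y - m) % 2) := by
  have hmin : min x y = y := min_eq_right hxy
  unfold w4
  rw [hmin]
  by_cases h1 : z + x + y - m ≤ 0
  · left
    exact ⟨h1, by rw [if_pos h1]⟩
  · right
    rw [if_neg h1]
    have h1' : 0 < z + x + y - m := by omega
    rcases le_total z y with hz | hz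
    · have hmz : min z y = z := min_eq_left hz
      rw [hmz]
      by_cases h2 : 2 * z < z + x + y - m
      · left
        exact ⟨h1', hz, h2, by rw [if_pos h2]⟩
      · rw [if_neg h2]
        right; right
        rcases Int.emod_two_eq_zero_or_one z with h3 | h3
        · left
          exact ⟨h1', by omega, by omega, h3, by rw [if_pos h3]⟩
        · right
          have h3' : ¬ (z % 2 = 0) := by omega
          exact ⟨h1', by omega, by omega, h3, by rw [if_neg h3']⟩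
    · have hmz : min z y = y := min_eq_right hz
      rw [hmz]
      by_cases h2 : 2 * y < z + x + y - m
      · right; left
        exact ⟨h1', hz, h2, by rw [if_pos h2]⟩
      · rw [if_neg h2]
        right; right
        rcases Int.emod_two_eq_zero_or_one z with h3 | h3
        · left
          exact ⟨h1', by omega, by omega, h3, by rw [if_pos h3]⟩
        · right
          have h3' : ¬ (z % 2 = 0) := by omega
          exact ⟨h1', by omega, by omega, h3, by rw [if_neg h3']⟩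

theorem w4_nonneg (m z x y : ℤ) (hz : 0 ≤ z) (hx : 0 ≤ x) (hy : 0 ≤ y) : 0 ≤ w4 m z x y := by
  wlog hxy : y ≤ x with H
  · rw [w4_symm]
    exact H m z y x hz hy hx (by omega)
  rcases w4_cases m z x y hxy with ⟨_, h⟩ | ⟨h1, h2, h3, h⟩ | ⟨h1, h2, h3, h⟩ | ⟨h1, h2, h3, h4, h⟩ |
    ⟨h1, h2, h3, h4, h⟩ <;> rw [h]
  · have : 0 ≤ z + x + y - m - z := by omega
    positivity
  · have : 0 ≤ z + x + y - m - y := by omega
    positivity
  · generalize z + x + y - m = q at *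
    have h5 : q % 2 ≤ 1 := by omega
    nlinarith
  · generalize z + x + y - m = q at *
    have h5 : 0 ≤ q % 2 := by omega
    positivity

/-- pointwise inequality for the bad pairs: `w4 ≥ q² - p²`, `p = z + (x - y) - m`. -/
theorem w4_bad (m z x y κ k : ℤ) (hm : m % 2 = 1) (hκ : κ % 2 = 1)
    (hn3 : 0 ≤ m + κ - 2 * k) (hy : 0 ≤ y) (hxy : y ≤ x)
    (hγ : x + y - 2 * k ≤ -(x - y - (m - κ))) :
    (z + x + y - m) ^ 2 - (z + x - y - m) ^ 2 ≤ w4 m z x y := by
  rcases w4_cases m z x y hxy with ⟨h1, h⟩ | ⟨h1, h2, h3, h⟩ | ⟨h1, h2, h3, h⟩ |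
    ⟨h1, h2, h3, h4, h⟩ | ⟨h1, h2, h3, h4, h⟩ <;> rw [h]
  · nlinarith
  · -- z smallest: w4 = q² - pz²
    have h5 : 4 * z * (z + x + y - m - z) = (z + x + y - m) ^ 2 - (x + y - z - m) ^ 2 := by ring
    rw [h5]
    -- 0 < x+y-z-m ≤ -(z+x-y-m)
    have h6 : 0 < x + y - z - m := by omega
    have h7 : x + y - z - m ≤ -(z + x - y - m) := by omega
    nlinarith
  · have h5 : 4 * y * (z + x + y - m - y) = (z + x + y - m) ^ 2 - (z + x - y - m) ^ 2 := by ring
    rw [h5]
  · -- z even : q² - q%2 ≥ q² - p²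
    have h5 : (z + x + y - m) % 2 ≤ (z + x - y - m) ^ 2 := by
      have h6 : (z + x + y - m) % 2 = (z + x - y - m) % 2 := by omega
      rw [h6]
      generalize z + x - y - m = p
      rcases Int.emod_two_eq_zero_or_one p with h7 | h7
      · rw [h7]; positivity
      · rw [h7]
        have h8 : p ≠ 0 := by rintro rfl; omega
        have h9 : 0 < p ^ 2 := by positivity
        omega
    linarith
  · have h5 : 0 ≤ (z + x + y - m) % 2 := by omega
    nlinarith [sq_nonneg (z + x - y - m)]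

theorem gam_nonneg (γ : ℤ) (h : γ ≠ 1) : 0 ≤ γ ^ 2 - 2 * γ := by
  rcases le_or_gt γ 0 with h10 | h10
  · nlinarith
  · have h2 : 2 ≤ γ := by omega
    nlinarith

theorem sq_le_a (p F : ℤ) (h0 : 0 < p) (h : p ≤ -F) : p ^ 2 ≤ F ^ 2 := by nlinarith

theorem sq_le_b (p F : ℤ) (h0 : 0 < p) (h : p + 1 ≤ -F) : p ^ 2 + 1 ≤ F ^ 2 := by nlinarith

theorem good_R1 (F γ θ : ℤ) (hθ : 0 ≤ θ) (h1 : F + γ + θ ≤ 0) (h2 : -θ - 1 ≤ F) :
    2 * (F + θ + 1) * γ + 2 * θ * F + θ ^ 2 ≤ 0 := by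
  have ha : 0 ≤ F + θ + 1 := by omega
  have h5 : (F + θ + 1) * γ ≤ (F + θ + 1) * (-F - θ) :=
    mul_le_mul_of_nonneg_left (by omega) ha
  have h6 : 0 ≤ F ^ 2 + (F + θ) ^ 2 + 2 * (F + θ) := by
    rcases eq_or_ne F 0 with h8 | h8
    · subst h8; positivity
    · have h9 : 1 ≤ F ^ 2 := by
        have : 0 < F ^ 2 := by positivity
        omega
      have h10 : 0 ≤ (F + θ + 1) ^ 2 := sq_nonneg _
      have h11 : (F + θ + 1) ^ 2 = (F + θ) ^ 2 + 2 * (F + θ) + 1 := by ring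
      rw [h11] at h10
      linarith
  have h12 : 2 * (F + θ + 1) * γ + 2 * θ * F + θ ^ 2 ≤
      2 * ((F + θ + 1) * (-F - θ)) + 2 * θ * F + θ ^ 2 := by linarith
  have h13 : 2 * ((F + θ + 1) * (-F - θ)) + 2 * θ * F + θ ^ 2 =
      -(F ^ 2 + (F + θ) ^ 2 + 2 * (F + θ)) := by ring
  rw [h13] at h12
  linarith

/-- pointwise inequality for the good pairs -/
theorem w4_good (m z x y κ k θ : ℤ) (hm : m % 2 = 1) (hκ : κ % 2 = 1)
    (hθ : θ = κ + 2 * k - m) (hθ0 : 0 ≤ θ)
    (hn3 : 2 ≤ m + κ - 2 * k) (hγ3 : x + y - 2 * k ≤ m + κ - 2 * k)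
    (hxy : y ≤ x)
    (hε : x - y - (m - κ) ≤ 0)
    (hF : -θ - 1 ≤ z - κ) :
    2 * (z - κ + θ + 1) * (x + y - 2 * k) + 2 * θ * (z - κ) + θ ^ 2 ≤ w4 m z x y := by
  obtain ⟨F, hFd⟩ : ∃ F, F = z - κ := ⟨_, rfl⟩
  obtain ⟨γ, hγd⟩ : ∃ γ, γ = x + y - 2 * k := ⟨_, rfl⟩
  have hq : z + x + y - m = F + γ + θ := by omega
  have h6 : 2 * (F + θ + 1) * γ + 2 * θ * F + θ ^ 2 =
      (F + γ + θ) ^ 2 - (F ^ 2 + (γ ^ 2 - 2 * γ)) := by ring
  rw [← hFd, ← hγd]
  rcases w4_cases m z x y hxy with ⟨h1, h⟩ | ⟨h1, h2, h3, h⟩ | ⟨h1, h2, h3, h⟩ |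
    ⟨h1, h2, h3, h4, h⟩ | ⟨h1, h2, h3, h4, h⟩ <;> rw [h]
  · -- q ≤ 0
    rw [hq] at h1
    exact good_R1 F γ θ hθ0 h1 (by omega)
  · -- z smallest
    have h5 : 4 * z * (z + x + y - m - z) = (z + x + y - m) ^ 2 - (x + y - z - m) ^ 2 := by ring
    obtain ⟨p, hp⟩ : ∃ p, p = x + y - z - m := ⟨_, rfl⟩
    rw [h5, h6, hq, ← hp]
    have hp0 : 0 < p := by omega
    have h7 : p ≤ - F := by omega
    rcases eq_or_ne γ 1 with h8 | h8
    · have h9 : p + 1 ≤ -F := by omega
      have h10 := sq_le_b p F hp0 h9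
      rw [h8]; linarith
    · have h9 := gam_nonneg γ h8
      have h10 := sq_le_a p F hp0 h7
      linarith
  · -- y smallest
    have h5 : 4 * y * (z + x + y - m - y) = (z + x + y - m) ^ 2 - (z + x - y - m) ^ 2 := by ring
    obtain ⟨p, hp⟩ : ∃ p, p = z + x - y - m := ⟨_, rfl⟩
    rw [h5, h6, hq, ← hp]
    have hp0 : 0 < p := by omega
    have h7 : p ≤ F := by omega
    rcases eq_or_ne γ 1 with h8 | h8
    · have h9 : p + 1 ≤ F := by omega
      have h10 := sq_le_b p (-F) hp0 (by omega)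
      have h11 : (-F) ^ 2 = F ^ 2 := by ring
      rw [h8]; linarith
    · have h9 := gam_nonneg γ h8
      have h10 := sq_le_a p (-F) hp0 (by omega)
      have h11 : (-F) ^ 2 = F ^ 2 := by ring
      linarith
  · -- z even, F odd
    rw [hq, h6]
    have h7 : F % 2 = 1 := by omega
    have h8 : F ≠ 0 := by rintro rfl; omega
    have h9 : 1 ≤ F ^ 2 := by
      have : 0 < F ^ 2 := by positivity
      omega
    rcases eq_or_ne γ 1 with h11 | h11
    · have h10 : (F + γ + θ) % 2 = 0 := by omega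
      rw [h10, h11]
      linarith
    · have h10 : (F + γ + θ) % 2 ≤ 1 := by omega
      have h12 := gam_nonneg γ h11
      linarith
  · rw [hq, h6]
    have h9 := sq_nonneg F
    rcases eq_or_ne γ 1 with h11 | h11
    · have h10 : (F + γ + θ) % 2 = 1 := by omega
      rw [h10, h11]
      linarith
    · have h10 : 0 ≤ (F + γ + θ) % 2 := by omega
      have h12 := gam_nonneg γ h11
      linarith

end SCH4
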