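import Mathlib
import Pool.Agent.Lib_helper25.I4.A

/-! MP_682720: item (4), the sum, general class. -/

namespace SCH4

open Finset

/-- `τ(F, γ)` -/
def tau (θ F γ : ℤ) : ℤ := 2 * (F + θ + 1) * γ + 2 * θ * F + θ ^ 2

theorem bad_arith (l SF ε γ : ℤ) (hl : 0 ≤ l) (hSF : SF ≤ l) (hε : 1 ≤ ε) (hγ : γ ≤ -ε) :
    0 ≤ -2 * ε * SF - l * ε ^ 2 + l * (γ ^ 2 - 2 * γ) := by
  have h1 : ε ^ 2 + 2 * ε ≤ γ ^ 2 - 2 * γ := by nlinarith
  have h2 : l * (ε ^ 2 + 2 * ε) ≤ l * (γ ^ 2 - 2 * γ) := mul_le_mul_of_nonneg_left h1 hl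
  have h3 : ε * SF ≤ ε * l := mul_le_mul_of_nonneg_left hSF (by omega)
  nlinarith

theorem main_sum {ι : Type*} [Fintype ι] (m L k s κ θ SF : ℤ) (f X Y : ι → ℤ)
    (hm : m % 2 = 1) (hκ : κ % 2 = 1)
    (hθ : θ = κ + 2 * k - m) (hθ0 : 0 ≤ θ)
    (hn3 : 2 ≤ m + κ - 2 * k) (hK4 : 2 * L ≤ m + κ)
    (hf : ∀ v, 0 ≤ f v) (hY : ∀ u, 0 ≤ Y u) (hXY : ∀ u, Y u ≤ X u) (hX : ∀ u, X u ≤ L)
    (hν : 2 * L - 2 * k - m + κ ≤ 0)
    (hF : ∑ v, (f v - κ) = SF) (hG : ∑ u, (X u + Y u - 2 * k) = 2 * s) (hs0 : 0 ≤ s)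
    (hSF : SF ≤ Fintype.card ι) :
    ∑ v, ∑ u, tau θ (f v - κ) (X u + Y u - 2 * k) ≤ ∑ v, ∑ u, w4 m (f v) (X u) (Y u) := by
  classical
  set good : Finset ι := univ.filter (fun u => X u - Y u - (m - κ) ≤ 0) with hgood
  set bad : Finset ι := univ.filter (fun u => ¬ (X u - Y u - (m - κ) ≤ 0)) with hbad
  have hsplit : ∀ h : ι → ℤ, ∑ u, h u = ∑ u ∈ good, h u + ∑ u ∈ bad, h u := fun h =>
    (sum_filter_add_sum_filter_not univ (fun u => X u - Y u - (m - κ) ≤ 0) h).symm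
  -- bad part
  have hBad : 0 ≤ ∑ u ∈ bad, ∑ v, (w4 m (f v) (X u) (Y u) - tau θ (f v - κ) (X u + Y u - 2 * k)) := by
    apply sum_nonneg
    intro u hu
    have hu' : ¬ (X u - Y u - (m - κ) ≤ 0) := (mem_filter.mp hu).2
    obtain ⟨ε, hε⟩ : ∃ ε, ε = X u - Y u - (m - κ) := ⟨_, rfl⟩
    obtain ⟨γ, hγ⟩ : ∃ γ, γ = X u + Y u - 2 * k := ⟨_, rfl⟩
    have h2K := hX u
    have hγε : γ ≤ -ε := by omega
    have hε1 : 1 ≤ ε := by omega
    have hpt : ∀ v, -2 * ε * (f v - κ) - ε ^ 2 + (γ ^ 2 - 2 * γ) ≤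
        w4 m (f v) (X u) (Y u) - tau θ (f v - κ) (X u + Y u - 2 * k) := by
      intro v
      have h := w4_bad m (f v) (X u) (Y u) κ k hm hκ (by omega) (hY u) (hXY u) (by omega)
      have e1 : f v + X u + Y u - m = (f v - κ) + γ + θ := by omega
      have e2 : f v + X u - Y u - m = (f v - κ) + ε := by omega
      rw [e1, e2] at h
      rw [← hγ]
      unfold tau
      have e3 : -2 * ε * (f v - κ) - ε ^ 2 + (γ ^ 2 - 2 * γ) =
        ((f v - κ + γ + θ) ^ 2 - (f v - κ + ε) ^ 2) -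
          (2 * (f v - κ + θ + 1) * γ + 2 * θ * (f v - κ) + θ ^ 2) := by ring
      rw [e3]
      linarith
    have hsum := sum_le_sum (fun v (_ : v ∈ (univ : Finset ι)) => hpt v)
    refine le_trans ?_ hsum
    rw [sum_add_distrib, sum_sub_distrib, ← mul_sum, hF]
    simp only [sum_const, card_univ, nsmul_eq_mul]
    exact bad_arith (Fintype.card ι) SF ε γ (by positivity) hSF hε1 hγε
  -- good part
  have hGsum : 0 ≤ ∑ u ∈ good, (X u + Y u - 2 * k) := by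
    have h1 := hsplit (fun u => X u + Y u - 2 * k)
    have h2 : ∑ u ∈ bad, (X u + Y u - 2 * k) ≤ 0 := by
      apply sum_nonpos
      intro u hu
      have hu' : ¬ (X u - Y u - (m - κ) ≤ 0) := (mem_filter.mp hu).2
      have h2K := hX u
      omega
    rw [hG] at h1
    linarith
  have hGood : 0 ≤ ∑ v, ∑ u ∈ good, (w4 m (f v) (X u) (Y u) - tau θ (f v - κ) (X u + Y u - 2 * k)) := by
    apply sum_nonneg
    intro v _
    by_cases hv : -θ - 1 ≤ f v - κ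
    · apply sum_nonneg
      intro u hu
      have hu' : X u - Y u - (m - κ) ≤ 0 := (mem_filter.mp hu).2
      have h2K := hX u
      have h2Y := hXY u
      have h := w4_good m (f v) (X u) (Y u) κ k θ hm hκ hθ hθ0 hn3 (by omega) (hXY u) hu' hv
      unfold tau
      linarith
    · have h1 : ∀ u, -tau θ (f v - κ) (X u + Y u - 2 * k) ≤
          w4 m (f v) (X u) (Y u) - tau θ (f v - κ) (X u + Y u - 2 * k) := by
        intro u
        have := w4_nonneg m (f v) (X u) (Y u) (hf v) (le_trans (hY u) (hXY u)) (hY u)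
        linarith
      refine le_trans ?_ (sum_le_sum (fun u (_ : u ∈ good) => h1 u))
      have h2 : ∑ u ∈ good, -tau θ (f v - κ) (X u + Y u - 2 * k) =
          (-(2 * (f v - κ + θ + 1))) * ∑ u ∈ good, (X u + Y u - 2 * k) +
            (good.card : ℤ) * (-(θ * (2 * (f v - κ) + θ))) := by
        rw [mul_sum, ← nsmul_eq_mul, ← sum_const, ← sum_add_distrib]
        apply sum_congr rfl
        intro u _
        unfold tau
        ring
      rw [h2]
      have h3 : 0 ≤ -(2 * (f v - κ + θ + 1)) := by omega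
      have h4 : 0 ≤ -(θ * (2 * (f v - κ) + θ)) := by
        have h5 : 2 * (f v - κ) + θ ≤ 0 := by omega
        nlinarith
      have h5 : (0 : ℤ) ≤ good.card := by positivity
      exact add_nonneg (mul_nonneg h3 hGsum) (mul_nonneg h5 h4)
  have hTot : 0 ≤ ∑ v, ∑ u, (w4 m (f v) (X u) (Y u) - tau θ (f v - κ) (X u + Y u - 2 * k)) := by
    have h1 : ∑ v, ∑ u, (w4 m (f v) (X u) (Y u) - tau θ (f v - κ) (X u + Y u - 2 * k)) =
        ∑ v, ∑ u ∈ good, (w4 m (f v) (X u) (Y u) - tau θ (f v - κ) (X u + Y u - 2 * k)) +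
        ∑ v, ∑ u ∈ bad, (w4 m (f v) (X u) (Y u) - tau θ (f v - κ) (X u + Y u - 2 * k)) := by
      rw [← sum_add_distrib]
      exact sum_congr rfl (fun v _ => hsplit _)
    rw [h1]
    have h2 : ∑ v, ∑ u ∈ bad, (w4 m (f v) (X u) (Y u) - tau θ (f v - κ) (X u + Y u - 2 * k)) =
        ∑ u ∈ bad, ∑ v, (w4 m (f v) (X u) (Y u) - tau θ (f v - κ) (X u + Y u - 2 * k)) :=
      sum_comm
    rw [h2]
    exact add_nonneg hGood hBad
  have h1 : ∑ v, ∑ u, (w4 m (f v) (X u) (Y u) - tau θ (f v - κ) (X u + Y u - 2 * k)) =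
      ∑ v, ∑ u, w4 m (f v) (X u) (Y u) - ∑ v, ∑ u, tau θ (f v - κ) (X u + Y u - 2 * k) := by
    rw [← sum_sub_distrib]
    exact sum_congr rfl (fun v _ => sum_sub_distrib _ _)
  rw [h1] at hTot
  linarith

theorem tau_sum {ι : Type*} [Fintype ι] (θ : ℤ) (F G : ι → ℤ) :
    ∑ v, ∑ u, tau θ (F v) (G u) =
      2 * (∑ v, F v) * (∑ u, G u) + 2 * (θ + 1) * (Fintype.card ι) * (∑ u, G u) +
        2 * θ * (Fintype.card ι) * (∑ v, F v) + (Fintype.card ι) ^ 2 * θ ^ 2 := by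
  have h1 : ∀ v u, tau θ (F v) (G u) = (2 * F v) * G u + 2 * (θ + 1) * G u + (2 * θ * F v + θ ^ 2) := by
    intro v u
    unfold tau
    ring
  simp only [h1, sum_add_distrib, ← mul_sum, ← sum_mul, sum_const, card_univ, nsmul_eq_mul]
  ring

/-- the target -/
def target (l T s : ℤ) : ℤ :=
  if T % 2 = 0 then l ^ 2 * T ^ 2 + 6 * l * s * T + 4 * l * s + 4 * s ^ 2
  else l ^ 2 * (T ^ 2 - 1) + 6 * l * s * (T + 1) + 4 * s ^ 2

/-- item (4), general form: levels bounded by `L` with `2L ≤ m + k`. -/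
theorem lay (l : ℕ) (m L k s : ℤ) (sg : Fin l → ℤ) (hm : m % 2 = 1)
    (hmk : m ≤ 3 * k + 1) (hL : 2 * L ≤ m + k) (hLm : L ≤ m - 1)
    (h0 : ∀ i, 0 ≤ sg i) (h2 : ∀ i, sg i ≤ L)
    (hs : ∑ i, sg i = k * l + s) (hs0 : 0 ≤ s) (hsl : s < l) :
    target l (3 * k - m) s ≤ ∑ v, ∑ u, w4 m (sg v) (sg u) (sg (Fin.rev u)) := by
  have hl : (0 : ℤ) < l := by omega
  -- k ≤ L
  have hk2 : k * l + s ≤ L * l := by
    rw [← hs]
    have := sum_le_sum (fun i (_ : i ∈ (univ : Finset (Fin l))) => h2 i)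
    simp only [sum_const, card_univ, Fintype.card_fin, nsmul_eq_mul] at this
    linarith
  have hk3 : k ≤ L := by nlinarith
  obtain ⟨κ, hκ, hκk⟩ : ∃ κ, κ % 2 = 1 ∧ (κ = k ∨ (κ = k + 1 ∧ k % 2 = 0)) := by
    rcases Int.emod_two_eq_zero_or_one k with h | h
    · exact ⟨k + 1, by omega, Or.inr ⟨rfl, h⟩⟩
    · exact ⟨k, h, Or.inl rfl⟩
  have hF : ∑ v, (sg v - κ) = k * l + s - l * κ := by
    rw [sum_sub_distrib, hs]
    simp
  set X : Fin l → ℤ := fun u => max (sg u) (sg (Fin.rev u)) with hX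
  set Y : Fin l → ℤ := fun u => min (sg u) (sg (Fin.rev u)) with hY
  have hXYs : ∀ u, X u + Y u = sg u + sg (Fin.rev u) := fun u => max_add_min _ _
  have hrev : ∑ u, sg (Fin.rev u) = ∑ u, sg u := Equiv.sum_comp Fin.revPerm sg
  have hG : ∑ u, (X u + Y u - 2 * k) = 2 * s := by
    rw [sum_sub_distrib]
    simp only [hXYs, sum_add_distrib, hrev, hs, sum_const, card_univ, Fintype.card_fin,
      nsmul_eq_mul]
    ring
  have hw : ∀ v u, w4 m (sg v) (sg u) (sg (Fin.rev u)) = w4 m (sg v) (X u) (Y u) := by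
    intro v u
    simp only [hX, hY]
    rcases le_total (sg u) (sg (Fin.rev u)) with h | h
    · rw [max_eq_right h, min_eq_left h, w4_symm]
    · rw [max_eq_left h, min_eq_right h]
  simp only [hw]
  have key := main_sum m L k s κ (κ + 2 * k - m) (k * l + s - l * κ) sg X Y hm hκ rfl (by omega)
    (by omega) (by omega) h0 (fun u => le_min (h0 _) (h0 _)) (fun u => min_le_max)
    (fun u => max_le (h2 _) (h2 _)) (by omega) hF hG hs0 (by
      rw [Fintype.card_fin]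
      rcases hκk with h | ⟨h, _⟩ <;> subst h <;> nlinarith)
  refine le_trans (le_of_eq ?_) key
  rw [tau_sum, hF, hG, Fintype.card_fin]
  unfold target
  rcases hκk with h | ⟨h, h'⟩
  · have h3 : (3 * k - m) % 2 = 0 := by omega
    rw [if_pos h3, h]
    ring
  · have h3 : ¬ ((3 * k - m) % 2 = 0) := by omega
    rw [if_neg h3, h]
    ring

/-- item (4) outside the class `m = 3K - 1`, `k = K`. -/
theorem item4_gen (l : ℕ) (m K k s : ℤ) (sg : Fin l → ℤ) (hm : m % 2 = 1) (hm0 : 0 < m)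
    (hK1 : 3 * K ≤ m + 1) (hK2 : m + 1 < 3 * K + 3)
    (h0 : ∀ i, 0 ≤ sg i) (h2 : ∀ i, sg i ≤ 2 * K)
    (hs : ∑ i, sg i = k * l + s) (hs0 : 0 ≤ s) (hsl : s < l) (hk : K ≤ k)
    (hgen : ¬ (m = 3 * K - 1 ∧ k = K)) :
    target l (3 * k - m) s ≤ ∑ v, ∑ u, w4 m (sg v) (sg u) (sg (Fin.rev u)) := by
  by_cases h : K = 0 ∨ m ≠ 1
  · exact lay l m (2 * K) k s sg hm (by omega) (by omega) (by omega) h0 h2 hs hs0 hsl
  · omega

end SCH4
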